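import Pool.Agent.Work.MP_a2fb93_df.Interface
import Pool.Agent.Work.MP_a2fb93_ev.B_COL
set_option autoImplicit false

/-! Block CLI (helper55): colouring with the fourth colour at the vertices of I. -/

namespace ESub

open Finset Classical

theorem CLI_near (a : Aff ℤ) (n z : ℤ) (f g : ℝ) (c y : ZMod 3) (hn : (n : ZMod 3) = 2 * c + 2)
    (hz : (z : ZMod 3) = 2 * y + 2) (h : a.red.act y ≠ c)
    (hn' : |(n : ℝ) - (2 * f + 1 / 2)| ≤ 3 / 2) (hz' : |(z : ℝ) - (2 * g + 1 / 2)| ≤ 3 / 2)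
    (hf : |f - a.ract g| ≤ 5 / 16) : COL_adj n (COL_M a z) := by
  have hne : ∀ k : ℤ, n ≠ COL_M a z + 3 * k := by
    intro k hk
    have h1 := congrArg (Int.cast : ℤ → ZMod 3) hk
    have h3 : ((3 : ℤ) : ZMod 3) = 0 := by decide
    rw [Int.cast_add, Int.cast_mul, h3, zero_mul, add_zero, hn, COL_mod a z y hz] at h1
    exact h (COL_inj _ _ h1).symm
  have hb : n - COL_M a z < 4 ∧ COL_M a z - n < 4 := by
    unfold Aff.ract at hf
    rw [abs_le] at hn' hz' hf
    rcases Int.units_eq_one_or a.s with h1 | h1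
    · rw [COL_M_pos h1]
      rw [h1] at hf
      simp only [Units.val_one, Int.cast_one, one_mul] at hf
      constructor
      · have : ((n - (z + 2 * a.t) : ℤ) : ℝ) < ((4 : ℤ) : ℝ) := by
          push_cast
          linarith [hn'.1, hn'.2, hz'.1, hz'.2, hf.1, hf.2]
        exact_mod_cast this
      · have : (((z + 2 * a.t) - n : ℤ) : ℝ) < ((4 : ℤ) : ℝ) := by
          push_cast
          linarith [hn'.1, hn'.2, hz'.1, hz'.2, hf.1, hf.2]
        exact_mod_cast this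
    · rw [COL_M_neg h1]
      rw [h1] at hf
      simp only [Units.val_neg, Units.val_one, Int.cast_neg, Int.cast_one, neg_mul, one_mul] at hf
      constructor
      · have : ((n - (-z + 2 * a.t + 1) : ℤ) : ℝ) < ((4 : ℤ) : ℝ) := by
          push_cast
          linarith [hn'.1, hn'.2, hz'.1, hz'.2, hf.1, hf.2]
        exact_mod_cast this
      · have : (((-z + 2 * a.t + 1) - n : ℤ) : ℝ) < ((4 : ℤ) : ℝ) := by
          push_cast
          linarith [hn'.1, hn'.2, hz'.1, hz'.2, hf.1, hf.2]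
        exact_mod_cast this
  have h0 := hne 0
  have h1 := hne 1
  have h2 := hne (-1)
  unfold COL_adj
  omega

theorem CLI_red_mul (a b : Aff ℤ) : (a * b).red = a.red * b.red := by
  ext
  · simp [Aff.red]
  · simp [Aff.red]

theorem CLI_red_one : (1 : Aff ℤ).red = 1 := by
  ext
  · simp [Aff.red]
  · simp [Aff.red]

theorem CLI_MR (a : Aff ℤ) (z : ℤ) (y : ℝ) :
    |((COL_M a z : ℤ) : ℝ) - (2 * a.ract y + 1 / 2)| = |(z : ℝ) - (2 * y + 1 / 2)| := by
  unfold Aff.ract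
  rcases Int.units_eq_one_or a.s with h1 | h1
  · rw [COL_M_pos h1, h1]
    congr 1
    push_cast
    ring
  · rw [COL_M_neg h1, h1, ← abs_neg]
    congr 1
    push_cast
    ring

theorem CLI_ract_one (y : ℝ) : (1 : Aff ℤ).ract y = y := by
  simp [Aff.ract]

theorem CLI_z1 : ∀ a b : ZMod 3, a ≠ b → b = a + 1 ∨ b = a + 2 := by decide
theorem CLI_z2 : ∀ a b : ZMod 3, a ≠ b → a ≠ -(a + b) := by decide
theorem CLI_z3 : ∀ a b : ZMod 3, a ≠ b → -(a + b) ≠ b := by decide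

theorem CLI_z4 : ∀ a : ZMod 3, -(a + (a + 1)) + 1 = a ∧ -(a + (a + 1)) + 2 = a + 1 := by decide
theorem CLI_z5 : ∀ a : ZMod 3, -(a + (a + 2)) + 1 = a + 2 ∧ -(a + (a + 2)) + 2 = a := by decide
theorem CLI_z6 : ∀ a : ZMod 3, a + 1 + 1 = a + 2 ∧ a + 1 + 2 = a ∧ a + 2 + 1 = a ∧
    a + 2 + 2 = a + 1 := by decide
theorem CLI_z7 : ∀ a : ZMod 3, a ≠ a + 1 ∧ a ≠ a + 2 ∧ a + 1 ≠ a + 2 := by decide

theorem p_CLI : Stmt_CLI := by
  intro D _ T ρ cl F I Y τ y hρ hcl hF hY hFY hI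
  choose n hn1 hn2 using fun (y : ℝ) (c : ZMod 3) => COL_round (2 * y + 1 / 2) (2 * c + 2)
  have nadj : ∀ (y : ℝ) (c c' : ZMod 3), c ≠ c' → COL_adj (n y c) (n y c') := by
    intro y c c' hc
    have h := CLI_near 1 (n y c) (n y c') y y c c' (hn1 _ _) (hn1 _ _)
      (by rw [CLI_red_one, Aff.act_one]; exact hc.symm) (hn2 _ _) (hn2 _ _)
      (by rw [CLI_ract_one, sub_self, abs_zero]; norm_num)
    rwa [COL_M_one] at h
  obtain ⟨E, hE⟩ : ∃ E : ℝ → ZMod 3 → Fin 3, ∀ y k, E y k = COL_cr (n y (k + 1)) (n y (k + 2)) :=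
    ⟨_, fun _ _ => rfl⟩
  have hEcr : ∀ (y : ℝ) (k k' : ZMod 3), k ≠ k' →
      COL_cr (n y k) (n y k') = E y (-(k + k')) := by
    intro y k k' h
    rw [hE]
    rcases CLI_z1 k k' h with rfl | rfl
    · rw [(CLI_z4 k).1, (CLI_z4 k).2]
    · rw [(CLI_z5 k).1, (CLI_z5 k).2, COL_cr_symm]
  have hEne : ∀ (y : ℝ) (k k' : ZMod 3), k ≠ k' → E y k ≠ E y k' := by
    intro y k k' h
    rw [hE, hE]
    obtain ⟨a1, a2, a3⟩ := CLI_z7 k
    obtain ⟨b1, b2, b3, b4⟩ := CLI_z6 k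
    rcases CLI_z1 k k' h with rfl | rfl
    · rw [b1, b2]
      exact COL_cr_ne (nadj y _ _ a3) (nadj y _ _ a2.symm) (nadj y _ _ a1)
    · rw [b3, b4]
      exact (COL_cr_ne (nadj y _ _ a1) (nadj y _ _ a3) (nadj y _ _ a2.symm)).symm
  obtain ⟨κ, hκ⟩ : ∃ κ : T.Vertex → ZMod 3, ∀ v, (τ v).red.act (κ v) = cl v :=
    ⟨fun v => ((τ v).red⁻¹).act (cl v), fun v => by
      rw [← Aff.act_mul, mul_inv_cancel, Aff.act_one]⟩
  obtain ⟨N, hNY, hN1, hN2⟩ : ∃ N : T.Vertex → ℤ,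
      (∀ v ∈ Y, N v = COL_M (τ v) (n (y v) (κ v))) ∧
      (∀ v, (N v : ZMod 3) = 2 * cl v + 2) ∧
      ∀ v, |(N v : ℝ) - (2 * F v + 1 / 2)| ≤ 3 / 2 := by
    refine ⟨fun v => if v ∈ Y then COL_M (τ v) (n (y v) (κ v)) else n (F v) (cl v), ?_, ?_, ?_⟩
    · intro v hv
      beta_reduce
      rw [if_pos hv]
    · intro v
      beta_reduce
      by_cases hv : v ∈ Y
      · rw [if_pos hv, COL_mod _ _ _ (hn1 _ _), hκ]
      · rw [if_neg hv, hn1]
    · intro v
      beta_reduce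
      by_cases hv : v ∈ Y
      · rw [if_pos hv, hFY v hv, CLI_MR]
        exact hn2 _ _
      · rw [if_neg hv]
        exact hn2 _ _
  have hadj : ∀ d, T.org d ∉ I → T.tgt d ∉ I →
      COL_adj (N (T.org d)) (COL_M (ρ d) (N (T.tgt d))) := fun d h1 h2 =>
    CLI_near (ρ d) _ _ _ _ _ _ (hN1 _) (hN1 _) (hcl d h1 h2) (hN2 _) (hN2 _) (hF d)
  have hκne : ∀ d, T.org d ∉ I → T.tgt d ∉ I → T.org d ∈ Y → T.tgt d ∈ Y →
      κ (T.org d) ≠ κ (T.tgt d) := by
    intro d h1 h2 h3 h4 h5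
    apply hcl d h1 h2
    rw [← hκ (T.tgt d), ← hκ (T.org d), ← Aff.act_mul, ← CLI_red_mul, ← (hY d h3 h4).1, h5]
  have hcr : ∀ d, T.org d ∉ I → T.tgt d ∉ I → T.org d ∈ Y → T.tgt d ∈ Y →
      COL_cr (N (T.org d)) (COL_M (ρ d) (N (T.tgt d))) =
        E (y (T.org d)) (-(κ (T.org d) + κ (T.tgt d))) := by
    intro d h1 h2 h3 h4
    have h5 := hκne d h1 h2 h3 h4
    rw [hNY _ h3, hNY _ h4, ← COL_M_mul, ← (hY d h3 h4).1, ← (hY d h3 h4).2,
      COL_cr_M _ (nadj _ _ _ h5), hEcr _ _ _ h5]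
  obtain ⟨col, hc1, hc2, hc3⟩ : ∃ col : D → Fin 3,
      (∀ d, T.org d ∈ I → col d = E (y (T.tgt d)) (κ (T.tgt d))) ∧
      (∀ d, T.org d ∉ I → T.tgt d ∈ I → col d = E (y (T.org d)) (κ (T.org d))) ∧
      (∀ d, T.org d ∉ I → T.tgt d ∉ I →
        col d = COL_cr (N (T.org d)) (COL_M (ρ d) (N (T.tgt d)))) := by
    refine ⟨fun d => if T.org d ∈ I then E (y (T.tgt d)) (κ (T.tgt d)) else
      if T.tgt d ∈ I then E (y (T.org d)) (κ (T.org d)) else
        COL_cr (N (T.org d)) (COL_M (ρ d) (N (T.tgt d))), ?_, ?_, ?_⟩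
    · intro d h
      beta_reduce
      rw [if_pos h]
    · intro d h h'
      beta_reduce
      rw [if_neg h, if_pos h']
    · intro d h h'
      beta_reduce
      rw [if_neg h, if_neg h']
  have key : ∀ d, col d ≠ col (T.next d) := by
    intro d
    have e1 : T.org (T.next d) = T.tgt d := org_next T d
    have e2 : T.org (T.next (T.next d)) = T.tgt (T.next d) := org_next T _
    have e3 : T.tgt (T.next (T.next d)) = T.org d := tgt_next_next T d
    by_cases i1 : T.org d ∈ I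
    · obtain ⟨y1, y2, i2⟩ := hI d i1
      have h3 := hI (T.rot d) (by rw [org_rot]; exact i1)
      have e4 : T.tgt (T.rot d) = T.tgt (T.next d) := by
        unfold Triangulation.rot
        rw [tgt_inv, e2]
      rw [e4] at h3
      obtain ⟨-, y3, i3⟩ := h3
      have j2 : T.org (T.next d) ∉ I := by rw [e1]; exact i2
      have z2 : T.org (T.next d) ∈ Y := by rw [e1]; exact y2
      rw [hc1 d i1, hc3 _ j2 i3, hcr _ j2 i3 z2 y3]
      have h := hκne _ j2 i3 z2 y3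
      rw [e1] at h ⊢
      exact hEne _ _ _ (CLI_z2 _ _ h)
    · by_cases i2 : T.tgt d ∈ I
      · have j2 : T.org (T.next d) ∈ I := by rw [e1]; exact i2
        obtain ⟨-, y3, i3⟩ := hI _ j2
        obtain ⟨-, y1, -⟩ := hI (T.inv d) i2
        rw [tgt_inv] at y1
        rw [hc2 d i1 i2, hc1 _ j2]
        have j3 : T.org (T.next (T.next d)) ∉ I := by rw [e2]; exact i3
        have z3 : T.org (T.next (T.next d)) ∈ Y := by rw [e2]; exact y3
        have j1 : T.tgt (T.next (T.next d)) ∉ I := by rw [e3]; exact i1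
        have z1 : T.tgt (T.next (T.next d)) ∈ Y := by rw [e3]; exact y1
        have h := hκne _ j3 j1 z3 z1
        have h' := (hY _ z3 z1).2
        rw [e2, e3] at h h'
        rw [h']
        exact hEne _ _ _ h.symm
      · by_cases i3 : T.tgt (T.next d) ∈ I
        · have j2 : T.org (T.next d) ∉ I := by rw [e1]; exact i2
          rw [hc2 _ j2 i3]
          have j3 : T.org (T.next (T.next d)) ∈ I := by rw [e2]; exact i3
          obtain ⟨-, y1, -⟩ := hI _ j3
          rw [e3] at y1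
          obtain ⟨-, y2, -⟩ := hI (T.inv (T.next d)) i3
          rw [tgt_inv, e1] at y2
          rw [hc3 d i1 i2, hcr d i1 i2 y1 y2, e1, (hY d y1 y2).2]
          exact hEne _ _ _ (CLI_z3 _ _ (hκne d i1 i2 y1 y2))
        · have j2 : T.org (T.next d) ∉ I := by rw [e1]; exact i2
          have j3 : T.org (T.next (T.next d)) ∉ I := by rw [e2]; exact i3
          have j1 : T.tgt (T.next (T.next d)) ∉ I := by rw [e3]; exact i1
          have a1 := hadj d i1 i2
          have a2 := hadj (T.next d) j2 i3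
          have a3 := hadj (T.next (T.next d)) j3 j1
          have a2' := COL_adj_M (ρ d) a2
          have a3' := COL_adj_M (ρ d) (COL_adj_M (ρ (T.next d)) a3)
          have c2 := COL_cr_M (ρ d) a2
          have e4 : COL_M (ρ d) (COL_M (ρ (T.next d)) (COL_M (ρ (T.next (T.next d)))
              (N (T.tgt (T.next (T.next d)))))) = N (T.org d) := by
            rw [← COL_M_mul, ← COL_M_mul, hρ.face, COL_M_one, e3]
          rw [e4] at a3'
          rw [e1] at a2' c2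
          rw [e2] at a3'
          rw [hc3 d i1 i2, hc3 _ j2 i3, e1, ← c2]
          exact COL_cr_ne a1 a2' a3'
  refine ⟨col, ?_, ?_⟩
  · intro d
    by_cases i1 : T.org d ∈ I
    · obtain ⟨-, -, i2⟩ := hI d i1
      rw [hc1 d i1, hc2 (T.inv d) i2 (by rw [tgt_inv]; exact i1)]
      rfl
    · by_cases i2 : T.tgt d ∈ I
      · rw [hc2 d i1 i2, hc1 (T.inv d) i2, tgt_inv]
      · have j1 : T.tgt (T.inv d) ∉ I := by rw [tgt_inv]; exact i1
        rw [hc3 d i1 i2, hc3 (T.inv d) i2 j1]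
        have h1 : COL_adj (N (T.tgt d)) (COL_M (ρ (T.inv d)) (N (T.tgt (T.inv d)))) :=
          hadj (T.inv d) i2 j1
        show COL_cr (N (T.tgt d)) (COL_M (ρ (T.inv d)) (N (T.tgt (T.inv d)))) = _
        rw [← COL_cr_M (ρ d) h1, ← COL_M_mul, hρ.inv, mul_inv_cancel, COL_M_one, tgt_inv,
          COL_cr_symm]
  · intro d
    have h3 := key (T.next (T.next d))
    rw [T.next_next_next] at h3
    exact ⟨key d, h3.symm, key (T.next d)⟩

end ESub
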