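import Pool.Agent.Work.MP_a2fb93_df.Interface
set_option autoImplicit false

/-! Block CLM: calming F near S. -/

namespace ESub

open Finset Classical

theorem CLM_ract_mul (a b : Aff ℤ) (y : ℝ) : (a * b).ract y = a.ract (b.ract y) := by
  simp only [Aff.ract, Aff.mul_t, Aff.mul_s, Units.val_mul, Int.cast_mul, Int.cast_add]
  simp only [Int.cast_id]
  ring

theorem CLM_ract_one (y : ℝ) : (1 : Aff ℤ).ract y = y := by
  simp [Aff.ract]

theorem CLM_s (a : Aff ℤ) : (((a.s : ℤ) : ℝ)) = 1 ∨ (((a.s : ℤ) : ℝ)) = -1 := by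
  rcases Int.units_eq_one_or a.s with h | h
  · left
    rw [h]
    simp
  · right
    rw [h]
    simp

theorem CLM_ract_abs (a : Aff ℤ) (y y' : ℝ) : |a.ract y - a.ract y'| = |y - y'| := by
  unfold Aff.ract
  rcases CLM_s a with h | h
  · rw [h]
    congr 1
    ring
  · rw [h, ← abs_neg]
    congr 1
    ring

theorem CLM_walk {D : Type} (T : Triangulation D) (ρ : D → Aff ℤ) (F : T.Vertex → ℝ)
    (hF : ∀ d, |F (T.org d) - (ρ d).ract (F (T.tgt d))| ≤ 1 / 4) (l : List D) :
    ∀ u v : T.Vertex, T.IsWalk l u v →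
      |F u - ((l.map ρ).prod).ract (F v)| ≤ (l.length : ℝ) / 4 := by
  induction l with
  | nil =>
    intro u v h
    have h1 : u = v := h
    rw [h1, List.map_nil, List.prod_nil, CLM_ract_one]
    simp
  | cons d l ih =>
    intro u v h
    obtain ⟨h1, h2⟩ := h
    have h3 := ih _ _ h2
    have h4 := hF d
    rw [List.map_cons, List.prod_cons, CLM_ract_mul, ← h1]
    have h5 : F (T.org d) - (ρ d).ract (((l.map ρ).prod).ract (F v)) =
        (F (T.org d) - (ρ d).ract (F (T.tgt d))) +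
        ((ρ d).ract (F (T.tgt d)) - (ρ d).ract (((l.map ρ).prod).ract (F v))) := by ring
    rw [h5]
    have h6 := abs_add_le (F (T.org d) - (ρ d).ract (F (T.tgt d)))
      ((ρ d).ract (F (T.tgt d)) - (ρ d).ract (((l.map ρ).prod).ract (F v)))
    rw [CLM_ract_abs] at h6
    rw [List.length_cons]
    push_cast
    linarith

theorem CLM_symm {D : Type} [Finite D] (T : Triangulation D) {m : ℕ} {v w : T.Vertex}
    (h : T.Near m v w) : T.Near m w v := by
  rw [near_iff] at h ⊢
  obtain ⟨l, hl, hw⟩ := h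
  refine ⟨T.rev l, ?_, walk_rev T hw⟩
  rw [Triangulation.rev, List.length_reverse, List.length_map]
  exact hl

theorem CLM_mono {D : Type} [Finite D] (T : Triangulation D) {m m' : ℕ} (hm : m ≤ m')
    {v w : T.Vertex} (h : T.Near m v w) : T.Near m' v w := by
  rw [near_iff] at h ⊢
  obtain ⟨l, hl, hw⟩ := h
  exact ⟨l, hl.trans hm, hw⟩

theorem CLM_trans {D : Type} [Finite D] (T : Triangulation D) {m m' : ℕ} {u v w : T.Vertex}
    (h : T.Near m u v) (h' : T.Near m' v w) : T.Near (m + m') u w := by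
  rw [near_iff] at h h' ⊢
  obtain ⟨l, hl, hw⟩ := h
  obtain ⟨l', hl', hw'⟩ := h'
  refine ⟨l ++ l', ?_, walk_append T hw hw'⟩
  rw [List.length_append]
  omega

/-- soft threshold -/
noncomputable def CLM_ph (θ x : ℝ) : ℝ := max (x - θ) 0 + min (x + θ) 0

theorem CLM_ph_neg (θ x : ℝ) : CLM_ph θ (-x) = - CLM_ph θ x := by
  unfold CLM_ph
  rcases max_cases (-x - θ) 0 with h1 | h1 <;> rcases min_cases (-x + θ) 0 with h2 | h2 <;>
  rcases max_cases (x - θ) 0 with h3 | h3 <;> rcases min_cases (x + θ) 0 with h4 | h4 <;>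
  linarith

theorem CLM_ph_zero (x : ℝ) : CLM_ph 0 x = x := by
  unfold CLM_ph
  rcases max_cases (x - 0) 0 with h3 | h3 <;> rcases min_cases (x + 0) 0 with h4 | h4 <;>
  linarith

theorem CLM_ph_small (θ x : ℝ) (h : |x| ≤ θ) : CLM_ph θ x = 0 := by
  unfold CLM_ph
  have h1 := abs_le.1 h
  rw [max_eq_right (by linarith), min_eq_right (by linarith)]
  ring

theorem CLM_ph_lip1 (θ x x' : ℝ) (hθ : 0 ≤ θ) (h : x' ≤ x) :
    CLM_ph θ x' ≤ CLM_ph θ x ∧ CLM_ph θ x ≤ CLM_ph θ x' + (x - x') := by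
  unfold CLM_ph
  rcases max_cases (x - θ) 0 with h1 | h1 <;> rcases min_cases (x + θ) 0 with h2 | h2 <;>
  rcases max_cases (x' - θ) 0 with h3 | h3 <;> rcases min_cases (x' + θ) 0 with h4 | h4 <;>
  constructor <;> linarith

theorem CLM_ph_lip2 (θ θ' x : ℝ) (hθ : 0 ≤ θ) (h : θ ≤ θ') :
    |CLM_ph θ x - CLM_ph θ' x| ≤ θ' - θ := by
  unfold CLM_ph
  rw [abs_le]
  rcases max_cases (x - θ) 0 with h1 | h1 <;> rcases min_cases (x + θ) 0 with h2 | h2 <;>
  rcases max_cases (x - θ') 0 with h3 | h3 <;> rcases min_cases (x + θ') 0 with h4 | h4 <;>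
  constructor <;> linarith

theorem CLM_ph_lip (θ θ' x x' : ℝ) (hθ : 0 ≤ θ) (hθ' : 0 ≤ θ') :
    |CLM_ph θ x - CLM_ph θ' x'| ≤ |x - x'| + |θ - θ'| := by
  have h1 : |CLM_ph θ x - CLM_ph θ x'| ≤ |x - x'| := by
    rcases le_total x' x with h | h
    · obtain ⟨a, b⟩ := CLM_ph_lip1 θ x x' hθ h
      rw [abs_of_nonneg (by linarith), abs_of_nonneg (by linarith)]
      linarith
    · obtain ⟨a, b⟩ := CLM_ph_lip1 θ x' x hθ h
      rw [abs_of_nonpos (by linarith), abs_of_nonpos (by linarith)]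
      linarith
  have h2 : |CLM_ph θ x' - CLM_ph θ' x'| ≤ |θ - θ'| := by
    rcases le_total θ θ' with h | h
    · have h3 := CLM_ph_lip2 θ θ' x' hθ h
      rw [abs_of_nonpos (a := θ - θ') (by linarith)]
      linarith
    · have h3 := CLM_ph_lip2 θ' θ x' hθ' h
      rw [abs_of_nonneg (a := θ - θ') (by linarith), abs_sub_comm]
      linarith
  have h3 := abs_add_le (CLM_ph θ x - CLM_ph θ x') (CLM_ph θ x' - CLM_ph θ' x')
  have h4 : CLM_ph θ x - CLM_ph θ x' + (CLM_ph θ x' - CLM_ph θ' x') =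
      CLM_ph θ x - CLM_ph θ' x' := by ring
  rw [h4] at h3
  linarith

theorem p_CLM : Stmt_CLM := by
  intro D _ T n k S ρ F hFW hn hsep hρ hF
  obtain ⟨L, hL⟩ : ∃ L : ℕ, L = 5 * (k + 1) := ⟨_, rfl⟩
  obtain ⟨t1, t2, t3, t4, t5, t6, t7⟩ := p_TDF p_VTX D T L
  set W : T.Vertex → Prop := fun u => ∃ s ∈ S, T.Near L u s with hW
  have hct : ∀ u, ∃ s, W u → (s ∈ S ∧ T.Near L u s) := by
    intro u
    by_cases h : W u
    · obtain ⟨s, hs, hn⟩ := h
      exact ⟨s, fun _ => ⟨hs, hn⟩⟩
    · exact ⟨u, fun h' => absurd h' h⟩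
  choose ct hct using hct
  have huniq : ∀ u s, s ∈ S → T.Near L u s → ct u = s := by
    intro u s hs hnear
    have hu : W u := ⟨s, hs, hnear⟩
    obtain ⟨h1, h2⟩ := hct u hu
    apply hsep _ h1 _ hs
    apply CLM_mono T _ (CLM_trans T (CLM_symm T h2) hnear)
    omega
  have hw0 : ∀ u, ∃ l : List D, W u → (l.length ≤ T.td L (ct u) u ∧ T.IsWalk l u (ct u)) := by
    intro u
    by_cases h : W u
    · obtain ⟨h1, h2⟩ := hct u h
      have h3 : T.td L (ct u) u ≤ L := (t7 _ _).2 h2
      have h4 : T.td L (ct u) u ∈ {n | n = L + 1 ∨ T.Near n u (ct u)} :=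
        Nat.sInf_mem ⟨L + 1, Or.inl rfl⟩
      rcases h4 with h4 | h4
      · omega
      · rw [near_iff] at h4
        obtain ⟨l, hl, hwl⟩ := h4
        exact ⟨l, fun _ => ⟨hl, hwl⟩⟩
    · exact ⟨[], fun h' => absurd h' h⟩
  choose w hw using hw0
  set ds : T.Vertex → ℕ := fun u => T.td L (ct u) u with hds
  have hdsL : ∀ u, W u → ds u ≤ L := by
    intro u hu
    exact (t7 _ _).2 (hct u hu).2
  set τ : T.Vertex → Aff ℤ := fun u => ((w u).map ρ).prod with hτ
  have hedge : ∀ d, W (T.org d) → W (T.tgt d) → ct (T.org d) = ct (T.tgt d) := by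
    intro d h1 h2
    have h3 := hct _ h1
    have h4 := hct _ h2
    apply hsep _ h3.1 _ h4.1
    have h5 : T.Near 1 (T.org d) (T.tgt d) := by
      rw [near_iff]
      exact ⟨[d], le_refl _, rfl, rfl⟩
    apply CLM_mono T _ (CLM_trans T (CLM_trans T (CLM_symm T h3.2) h5) h4.2)
    omega
  have hτe : ∀ d, W (T.org d) → W (T.tgt d) → τ (T.org d) = ρ d * τ (T.tgt d) := by
    intro d h1 h2
    obtain ⟨l1, w1⟩ := hw _ h1
    obtain ⟨l2, w2⟩ := hw _ h2
    have h3 := hdsL _ h1
    have h4 := hdsL _ h2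
    have hc := hedge d h1 h2
    have w3 : T.IsWalk (T.rev (w (T.org d)) ++ ([d] ++ w (T.tgt d))) (ct (T.org d))
        (ct (T.org d)) := by
      apply walk_append T (walk_rev T w1)
      apply walk_append T (show T.IsWalk [d] (T.org d) (T.tgt d) from ⟨rfl, rfl⟩)
      rw [hc]
      exact w2
    have h5 : (T.rev (w (T.org d)) ++ ([d] ++ w (T.tgt d))).length < n := by
      simp only [Triangulation.rev, List.length_append, List.length_reverse, List.length_map,
        List.length_singleton]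
      have h6 : (w (T.org d)).length ≤ L := l1.trans h3
      have h7 : (w (T.tgt d)).length ≤ L := l2.trans h4
      omega
    have h6 := short_closed T hFW w3 h5 hρ
    rw [List.map_append, List.map_append, List.prod_append, List.prod_append,
      prod_rev T hρ, List.map_singleton, List.prod_singleton] at h6
    have h7 : (τ (T.org d))⁻¹ * (ρ d * τ (T.tgt d)) = 1 := h6
    rw [inv_mul_eq_one] at h7
    exact h7
  set P : T.Vertex → ℝ := fun u => (τ u).ract (F (ct u)) with hP
  set a : T.Vertex → ℝ := fun u => F u - P u with ha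
  have hPe : ∀ d, W (T.org d) → W (T.tgt d) → P (T.org d) = (ρ d).ract (P (T.tgt d)) := by
    intro d h1 h2
    show (τ (T.org d)).ract (F (ct (T.org d))) = (ρ d).ract ((τ (T.tgt d)).ract (F (ct (T.tgt d))))
    rw [hτe d h1 h2, hedge d h1 h2, CLM_ract_mul]
  have haa : ∀ u, W u → |a u| ≤ (ds u : ℝ) / 4 := by
    intro u hu
    obtain ⟨l1, w1⟩ := hw u hu
    have h1 := CLM_walk T ρ F hF (w u) u (ct u) w1
    have h2 : ((w u).length : ℝ) ≤ (ds u : ℝ) := by exact_mod_cast l1
    show |F u - P u| ≤ _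
    have h3 : P u = ((w u).map ρ).prod.ract (F (ct u)) := rfl
    rw [h3]
    linarith
  set θ : T.Vertex → ℝ := fun u => ((L : ℝ) - (ds u : ℝ)) / 16 with hθ
  have hθ0 : ∀ u, W u → 0 ≤ θ u := by
    intro u hu
    have h1 : (ds u : ℝ) ≤ (L : ℝ) := by exact_mod_cast hdsL u hu
    show 0 ≤ ((L : ℝ) - (ds u : ℝ)) / 16
    linarith
  set F' : T.Vertex → ℝ := fun u => if W u then P u + CLM_ph (θ u) (a u) else F u with hF'
  have hF'in : ∀ u, W u → F' u = P u + CLM_ph (θ u) (a u) := fun u hu => if_pos hu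
  have hF'out : ∀ u, ¬ W u → F' u = F u := fun u hu => if_neg hu
  have hF'L : ∀ u, W u → ds u = L → F' u = F u := by
    intro u hu hL'
    have h1 : θ u = 0 := by
      show ((L : ℝ) - (ds u : ℝ)) / 16 = 0
      rw [hL']
      ring
    rw [hF'in u hu, h1, CLM_ph_zero]
    show P u + (F u - P u) = F u
    ring
  have hball : ∀ v, v ∈ Ball T S (k + 1) → ∃ s ∈ S, T.Near (k + 1) v s ∧ W v := by
    rintro v ⟨s, hs, h⟩
    have h1 := CLM_symm T h
    exact ⟨s, hs, h1, s, hs, CLM_mono T (by omega) h1⟩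
  refine ⟨F', τ, fun v => F (ct v), ?_, ?_, ?_⟩
  · intro d
    by_cases h1 : W (T.org d)
    · by_cases h2 : W (T.tgt d)
      · have hc := hedge d h1 h2
        have h3 := t3 (ct (T.org d)) d
        have h4 := t4 (ct (T.org d)) d
        have h5 : ds (T.org d) ≤ ds (T.tgt d) + 1 := by
          show T.td L (ct (T.org d)) (T.org d) ≤ T.td L (ct (T.tgt d)) (T.tgt d) + 1
          rw [← hc]
          exact h3
        have h6 : ds (T.tgt d) ≤ ds (T.org d) + 1 := by
          show T.td L (ct (T.tgt d)) (T.tgt d) ≤ T.td L (ct (T.org d)) (T.org d) + 1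
          rw [← hc]
          exact h4
        have h5' : (ds (T.org d) : ℝ) ≤ (ds (T.tgt d) : ℝ) + 1 := by exact_mod_cast h5
        have h6' : (ds (T.tgt d) : ℝ) ≤ (ds (T.org d) : ℝ) + 1 := by exact_mod_cast h6
        have h7 : |θ (T.org d) - θ (T.tgt d)| ≤ 1 / 16 := by
          show |((L : ℝ) - (ds (T.org d) : ℝ)) / 16 - ((L : ℝ) - (ds (T.tgt d) : ℝ)) / 16| ≤ 1 / 16
          rw [abs_le]
          constructor <;> linarith
        have hPd := hPe d h1 h2
        have hFd := hF d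
        rw [hF'in _ h1, hF'in _ h2]
        have h8 : |P (T.org d) + CLM_ph (θ (T.org d)) (a (T.org d)) -
            (ρ d).ract (P (T.tgt d) + CLM_ph (θ (T.tgt d)) (a (T.tgt d)))| ≤
            |F (T.org d) - (ρ d).ract (F (T.tgt d))| + |θ (T.org d) - θ (T.tgt d)| := by
          have ha1 : F (T.org d) = P (T.org d) + a (T.org d) := by
            show F (T.org d) = P (T.org d) + (F (T.org d) - P (T.org d))
            ring
          have ha2 : F (T.tgt d) = P (T.tgt d) + a (T.tgt d) := by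
            show F (T.tgt d) = P (T.tgt d) + (F (T.tgt d) - P (T.tgt d))
            ring
          rw [ha1, ha2, hPd]
          unfold Aff.ract
          rcases CLM_s (ρ d) with hs | hs
          · rw [hs]
            have e1 : 1 * P (T.tgt d) + ((ρ d).t : ℝ) + CLM_ph (θ (T.org d)) (a (T.org d)) -
                (1 * (P (T.tgt d) + CLM_ph (θ (T.tgt d)) (a (T.tgt d))) + ((ρ d).t : ℝ)) =
                CLM_ph (θ (T.org d)) (a (T.org d)) - CLM_ph (θ (T.tgt d)) (a (T.tgt d)) := by ring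
            have e2 : 1 * P (T.tgt d) + ((ρ d).t : ℝ) + a (T.org d) -
                (1 * (P (T.tgt d) + a (T.tgt d)) + ((ρ d).t : ℝ)) =
                a (T.org d) - a (T.tgt d) := by ring
            rw [e1, e2]
            exact CLM_ph_lip _ _ _ _ (hθ0 _ h1) (hθ0 _ h2)
          · rw [hs]
            have e1 : -1 * P (T.tgt d) + ((ρ d).t : ℝ) + CLM_ph (θ (T.org d)) (a (T.org d)) -
                (-1 * (P (T.tgt d) + CLM_ph (θ (T.tgt d)) (a (T.tgt d))) + ((ρ d).t : ℝ)) =
                CLM_ph (θ (T.org d)) (a (T.org d)) - CLM_ph (θ (T.tgt d)) (-a (T.tgt d)) := by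
              rw [CLM_ph_neg]
              ring
            have e2 : -1 * P (T.tgt d) + ((ρ d).t : ℝ) + a (T.org d) -
                (-1 * (P (T.tgt d) + a (T.tgt d)) + ((ρ d).t : ℝ)) =
                a (T.org d) - (-a (T.tgt d)) := by ring
            rw [e1, e2]
            exact CLM_ph_lip _ _ _ _ (hθ0 _ h1) (hθ0 _ h2)
        linarith
      · have h3 : ds (T.org d) = L := by
          have h4 := hdsL _ h1
          have h5 : ¬ T.td L (ct (T.org d)) (T.tgt d) ≤ L := by
            intro h6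
            exact h2 ⟨ct (T.org d), (hct _ h1).1, (t7 _ _).1 h6⟩
          have h6 := t4 (ct (T.org d)) d
          have h7 : ds (T.org d) = T.td L (ct (T.org d)) (T.org d) := rfl
          omega
        rw [hF'L _ h1 h3, hF'out _ h2]
        linarith [hF d]
    · by_cases h2 : W (T.tgt d)
      · have h3 : ds (T.tgt d) = L := by
          have h4 := hdsL _ h2
          have h5 : ¬ T.td L (ct (T.tgt d)) (T.org d) ≤ L := by
            intro h6
            exact h1 ⟨ct (T.tgt d), (hct _ h2).1, (t7 _ _).1 h6⟩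
          have h6 := t3 (ct (T.tgt d)) d
          have h7 : ds (T.tgt d) = T.td L (ct (T.tgt d)) (T.tgt d) := rfl
          omega
        rw [hF'L _ h2 h3, hF'out _ h1]
        linarith [hF d]
      · rw [hF'out _ h1, hF'out _ h2]
        linarith [hF d]
  · intro d h1 h2
    obtain ⟨s, _, _, hw1⟩ := hball _ h1
    obtain ⟨s', _, _, hw2⟩ := hball _ h2
    refine ⟨hτe d hw1 hw2, ?_⟩
    show F (ct (T.org d)) = F (ct (T.tgt d))
    rw [hedge d hw1 hw2]
  · intro v hv
    obtain ⟨s, hs, hsn, hwv⟩ := hball _ hv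
    have h1 : ct v = s := huniq v s hs (CLM_mono T (by omega) hsn)
    have h2 : ds v ≤ k + 1 := by
      show T.td L (ct v) v ≤ k + 1
      rw [h1]
      exact Nat.sInf_le (Or.inr hsn)
    have h2' : (ds v : ℝ) ≤ (k : ℝ) + 1 := by exact_mod_cast h2
    have h3 := haa v hwv
    have h4 : |a v| ≤ θ v := by
      show |a v| ≤ ((L : ℝ) - (ds v : ℝ)) / 16
      have h5 : (L : ℝ) = 5 * ((k : ℝ) + 1) := by
        rw [hL]
        push_cast
        ring
      rw [h5]
      linarith
    rw [hF'in v hwv, CLM_ph_small _ _ h4, add_zero]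

end ESub
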