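import Pool.Agent.Work.MP_a2fb93_df.Interface
import Pool.Agent.Work.MP_a2fb93_ev.B_CONN
set_option autoImplicit false

/-! Block FRM (helper55): frames around the defects. -/

namespace ESub

open Finset Classical

theorem FRM_par_le {D : Type} (T : Triangulation D) (r : D)
    (hE : ∀ n, T.rot^[n] r = r → Even n) {a b : ℕ} (hab : a ≤ b)
    (h : T.rot^[a] r = T.rot^[b] r) : (-1 : ℤˣ) ^ a = (-1) ^ b := by
  obtain ⟨c, rfl⟩ := Nat.exists_eq_add_of_le hab
  rw [Function.iterate_add_apply] at h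
  have h1 : r = T.rot^[c] r := (CONN_rot_inj T).iterate a h
  have h2 := hE c h1.symm
  rw [pow_add, h2.neg_one_pow, mul_one]

theorem FRM_par {D : Type} (T : Triangulation D) (r : D)
    (hE : ∀ n, T.rot^[n] r = r → Even n) {a b : ℕ}
    (h : T.rot^[a] r = T.rot^[b] r) : (-1 : ℤˣ) ^ a = (-1) ^ b := by
  rcases le_total a b with hab | hab
  · exact FRM_par_le T r hE hab h
  · exact (FRM_par_le T r hE hab h.symm).symm

theorem FRM_step {D : Type} [Finite D] (T : Triangulation D) {n : ℕ} {s : T.Vertex} {d : D}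
    (h : T.Near n s (T.org d)) : T.Near (n + 1) s (T.tgt d) := by
  obtain ⟨l, hl, hw⟩ := (near_iff T n s (T.org d)).1 h
  refine (near_iff T (n + 1) s (T.tgt d)).2 ⟨l ++ [d], ?_, ?_⟩
  · rw [List.length_append, List.length_singleton]
    omega
  · exact walk_append T hw ⟨rfl, rfl⟩

/-- the affine map with q ↦ x and y ↦ p -/
def FRM_G (p q x y : ZMod 3) : Aff (ZMod 3) :=
  if p - x = y - q then ⟨1, x - q⟩ else ⟨-1, x + q⟩

theorem FRM_G_act (p q x y : ZMod 3) : (FRM_G p q x y).act q = x := by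
  unfold FRM_G
  split_ifs
  · simp [Aff.act]
  · simp [Aff.act]

theorem FRM_G_one (p q : ZMod 3) : FRM_G p q q p = 1 := by
  unfold FRM_G
  rw [if_pos rfl, sub_self]
  rfl

theorem FRM_sg : ∀ p q x y : ZMod 3, p ≠ x → q ≠ y → ¬ p - x = y - q → p - x = q - y := by
  decide

theorem FRM_G_act' (p q x y : ZMod 3) (h1 : p ≠ x) (h2 : q ≠ y) : (FRM_G p q x y).act y = p := by
  unfold FRM_G
  split_ifs with h
  · simp only [Aff.act, Units.val_one, Int.cast_one, one_mul]
    linear_combination -h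
  · have h3 := FRM_sg p q x y h1 h2 h
    simp only [Aff.act, Units.val_neg, Units.val_one, Int.cast_neg, Int.cast_one, neg_mul, one_mul]
    linear_combination -h3

theorem FRM_one (a : Aff (ZMod 3)) (c x : ZMod 3) (h : c ≠ x) (h1 : a.act c = c)
    (h2 : a.act x = x) : a = 1 := by
  obtain ⟨s, t⟩ := a
  rcases Int.units_eq_one_or s with rfl | rfl
  · simp only [Aff.act, Units.val_one, Int.cast_one, one_mul] at h1
    ext
    · rfl
    · show t = 0
      linear_combination h1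
  · exfalso
    simp only [Aff.act, Units.val_neg, Units.val_one, Int.cast_neg, Int.cast_one, neg_mul,
      one_mul] at h1 h2
    apply h
    have h3 : (3 : ZMod 3) = 0 := by decide
    linear_combination h1 - h2 + (c - x) * h3

theorem FRM_third (a : Aff (ZMod 3)) (q y : ZMod 3) : a.act (-q - y) = -a.act q - a.act y := by
  have h3 : (3 : ZMod 3) = 0 := by decide
  simp only [Aff.act]
  linear_combination a.t * h3

theorem FRM_G_inv (p q x y : ZMod 3) (h1 : p ≠ x) (h2 : q ≠ y) :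
    FRM_G q p y x = (FRM_G p q x y)⁻¹ := by
  rw [eq_inv_iff_mul_eq_one]
  refine FRM_one _ q y h2 ?_ ?_
  · rw [Aff.act_mul, FRM_G_act, FRM_G_act' q p y x h2 h1]
  · rw [Aff.act_mul, FRM_G_act' p q x y h1 h2, FRM_G_act]

theorem FRM_ne : ∀ a b : ZMod 3, a ≠ b → a ≠ -a - b := by decide

theorem FRM_face (c1 c2 c3 x1 x2 x3 : ZMod 3) (h1 : c1 ≠ x1) (h2 : c2 ≠ x2) (h3 : c3 ≠ x3) :
    FRM_G c1 c2 x1 (-c2 - x2) * FRM_G c2 c3 x2 (-c3 - x3) * FRM_G c3 c1 x3 (-c1 - x1) = 1 := by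
  have e1 := FRM_G_act' c1 c2 x1 (-c2 - x2) h1 (FRM_ne _ _ h2)
  have e2 := FRM_G_act' c2 c3 x2 (-c3 - x3) h2 (FRM_ne _ _ h3)
  have e3 := FRM_G_act' c3 c1 x3 (-c1 - x1) h3 (FRM_ne _ _ h1)
  have t : ∀ a b : ZMod 3, -a - (-a - b) = b := fun a b => by ring
  refine FRM_one _ c1 x1 h1 ?_ ?_
  · rw [Aff.act_mul, Aff.act_mul, FRM_G_act]
    have h := FRM_third (FRM_G c2 c3 x2 (-c3 - x3)) c3 (-c3 - x3)
    rw [t, FRM_G_act, e2] at h
    have h' : -x2 - c2 = -c2 - x2 := by ring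
    rw [h, h', e1]
  · have h := FRM_third (FRM_G c3 c1 x3 (-c1 - x1)) c1 (-c1 - x1)
    rw [t, FRM_G_act, e3] at h
    have h' : -x3 - c3 = -c3 - x3 := by ring
    rw [Aff.act_mul, Aff.act_mul, h, h', e2, FRM_G_act]

theorem FRM_sum : ∀ a b c : ZMod 3, a ≠ b → a ≠ c → b ≠ c → c = -a - b := by decide

/-- the classes of the colours -/
def FRM_z : Fin 4 → ZMod 3 := ![0, 1, 2, 0]

theorem FRM_z_ne : ∀ a b : Fin 4, a ≠ 3 → b ≠ 3 → a ≠ b → FRM_z a ≠ FRM_z b := by decide

theorem p_FRM : Stmt_FRM := by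
  intro D _ T S k f hT
  obtain ⟨A, hA⟩ : ∃ A : Set T.Vertex, A = Ball T S (k + 1) := ⟨_, rfl⟩
  have hAm : ∀ v, v ∈ A ↔ ∃ s ∈ S, T.Near (k + 1) s v := fun v => by rw [hA]; rfl
  -- signs
  choose rep hrep using exists_org T
  have hn : ∀ d : D, ∃ n : ℕ, T.rot^[n] (rep (T.org d)) = d := by
    intro d
    exact (org_eq_iff T _ _).1 (hrep (T.org d))
  choose n hn using hn
  obtain ⟨σ, hσ⟩ : ∃ σ : D → ℤˣ, σ = fun d => (-1) ^ n d := ⟨_, rfl⟩
  have hσr : ∀ d, T.org d ∉ A → σ (T.rot d) = -σ d := by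
    intro d hd
    rw [hσ]
    have h1 := hn (T.rot d)
    rw [org_rot T d] at h1
    have h2 : T.rot^[n d + 1] (rep (T.org d)) = T.rot d := by
      rw [Function.iterate_succ_apply', hn d]
    have hE : ∀ m, T.rot^[m] (rep (T.org d)) = rep (T.org d) → Even m := by
      intro m hm
      refine hT.even (rep (T.org d)) m ?_ hm
      intro s hs hN
      rw [hrep] at hN
      exact hd ((hAm _).2 ⟨s, hs, hN⟩)
    have h3 := FRM_par T (rep (T.org d)) hE (h1.trans h2.symm)
    show (-1) ^ n (T.rot d) = -(-1) ^ n d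
    rw [h3, pow_succ]
    simp
  obtain ⟨cl, hcA, hcB⟩ : ∃ cl : T.Vertex → ZMod 3, (∀ v ∈ A, cl v = FRM_z (f v)) ∧
      ∀ v, v ∉ A → cl v = 2 :=
    ⟨fun v => if v ∈ A then FRM_z (f v) else 2, fun v hv => if_pos hv, fun v hv => if_neg hv⟩
  obtain ⟨β, hβA, hβB⟩ : ∃ β : D → ZMod 3, (∀ d, T.org d ∈ A → β d = FRM_z (f (T.tgt d))) ∧
      ∀ d, T.org d ∉ A → β d = if σ d = 1 then 0 else 1 :=
    ⟨fun d => if T.org d ∈ A then FRM_z (f (T.tgt d)) else if σ d = 1 then 0 else 1,
      fun d hd => if_pos hd, fun d hd => if_neg hd⟩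
  have tgt_rot : ∀ d, T.tgt (T.rot d) = T.tgt (T.next d) := by
    intro d
    unfold Triangulation.rot
    rw [tgt_inv, org_next]
  -- proper
  have hprop : ∀ d, T.org d ∈ A → f (T.org d) ≠ f (T.tgt d) := by
    intro d hd
    obtain ⟨s, hs, hN⟩ := (hAm _).1 hd
    exact hT.proper s hs d (T.TDF_succ hN) (FRM_step T hN)
  have hprop3 : ∀ d, T.org d ∈ A → f (T.tgt d) ≠ f (T.tgt (T.next d)) := by
    intro d hd
    obtain ⟨s, hs, hN⟩ := (hAm _).1 hd
    have h1 : T.Near (k + 2) s (T.org (T.next d)) := by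
      rw [org_next]
      exact FRM_step T hN
    have h2 : T.Near (k + 2) s (T.tgt (T.next d)) := by
      rw [← tgt_rot]
      exact FRM_step T (by rw [org_rot]; exact hN)
    have h := hT.proper s hs (T.next d) h1 h2
    rwa [org_next] at h
  have back : ∀ (m : ℕ) (s : T.Vertex) (d : D), T.Near m s (T.tgt d) →
      T.Near (m + 1) s (T.org d) := by
    intro m s d h
    have := FRM_step T (d := T.inv d) h
    rwa [tgt_inv] at this
  -- the relation
  have rel : ∀ d, (T.org d ∉ A ∨ T.tgt d ∉ A ∨ T.tgt (T.next d) ∉ A) →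
      cl (T.org d) ≠ β d ∧ cl (T.org d) ≠ β (T.rot d) ∧ β d ≠ β (T.rot d) := by
    intro d hoff
    by_cases h0 : T.org d ∈ A
    · have h0r : T.org (T.rot d) ∈ A := by rw [org_rot]; exact h0
      rw [hcA _ h0, hβA _ h0, hβA _ h0r, tgt_rot]
      have p1 := hprop d h0
      have p2 := hprop (T.rot d) h0r
      rw [org_rot, tgt_rot] at p2
      have p3 := hprop3 d h0
      have n1 : f (T.org d) ≠ 3 := by
        intro h3
        obtain ⟨s, hs, hN⟩ := hT.fourth _ h3
        rcases hoff with h | h | h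
        · exact h h0
        · exact h ((hAm _).2 ⟨s, hs, FRM_step T hN⟩)
        · refine h ((hAm _).2 ⟨s, hs, ?_⟩)
          rw [← tgt_rot]
          exact FRM_step T (by rw [org_rot]; exact hN)
      have n2 : f (T.tgt d) ≠ 3 := by
        intro h3
        obtain ⟨s, hs, hN⟩ := hT.fourth _ h3
        rcases hoff with h | h | h
        · exact h h0
        · exact h ((hAm _).2 ⟨s, hs, T.TDF_succ hN⟩)
        · refine h ((hAm _).2 ⟨s, hs, ?_⟩)
          exact FRM_step T (by rw [org_next]; exact hN)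
      have n3 : f (T.tgt (T.next d)) ≠ 3 := by
        intro h3
        obtain ⟨s, hs, hN⟩ := hT.fourth _ h3
        rcases hoff with h | h | h
        · exact h h0
        · refine h ((hAm _).2 ⟨s, hs, ?_⟩)
          have := back _ _ _ hN
          rwa [org_next] at this
        · exact h ((hAm _).2 ⟨s, hs, T.TDF_succ hN⟩)
      exact ⟨FRM_z_ne _ _ n1 n2 p1, FRM_z_ne _ _ n1 n3 p2, FRM_z_ne _ _ n2 n3 p3⟩
    · have h0r : T.org (T.rot d) ∉ A := by rw [org_rot]; exact h0
      rw [hcB _ h0, hβB _ h0, hβB _ h0r, hσr d h0]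
      rcases Int.units_eq_one_or (σ d) with h | h
      · rw [h]
        simp only [if_true]
        rw [if_neg CONN_ne2]
        decide
      · rw [h, neg_neg]
        simp only [if_true]
        rw [if_neg CONN_ne2]
        decide
  obtain ⟨g, hg⟩ : ∃ g : D → Aff (ZMod 3), ∀ d, g d =
      FRM_G (cl (T.org d)) (cl (T.tgt d)) (β d) (β (T.inv d)) := ⟨_, fun _ => rfl⟩
  have gA : ∀ d, T.org d ∈ A → T.tgt d ∈ A → g d = 1 := by
    intro d h1 h2
    rw [hg, hcA _ h1, hcA _ h2, hβA _ h1, hβA (T.inv d) h2, tgt_inv]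
    exact FRM_G_one _ _
  refine ⟨g, cl, ⟨?_, ?_⟩, ?_⟩
  · intro d
    by_cases h : T.org d ∈ A ∧ T.tgt d ∈ A
    · rw [gA d h.1 h.2, gA (T.inv d) h.2 (by rw [tgt_inv]; exact h.1), inv_one]
    · have h' : T.org d ∉ A ∨ T.tgt d ∉ A := by
        by_cases h1 : T.org d ∈ A
        · exact Or.inr fun h2 => h ⟨h1, h2⟩
        · exact Or.inl h1
      have r1 := rel d (h'.elim Or.inl fun x => Or.inr (Or.inl x))
      have r2 := rel (T.inv d) (h'.elim (fun x => Or.inr (Or.inl (by rw [tgt_inv]; exact x)))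
        fun x => Or.inl x)
      rw [hg, hg, T.inv_inv, tgt_inv]
      exact FRM_G_inv _ _ _ _ r1.1 r2.1
  · intro d
    have e1 : T.org (T.next d) = T.tgt d := org_next T d
    have e2 : T.org (T.next (T.next d)) = T.tgt (T.next d) := org_next T _
    have e3 : T.tgt (T.next (T.next d)) = T.org d := tgt_next_next T d
    by_cases h : T.org d ∉ A ∨ T.tgt d ∉ A ∨ T.tgt (T.next d) ∉ A
    · have r1 := rel d h
      have r2 := rel (T.next d) (by
        rw [e1, e3]
        tauto)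
      have r3 := rel (T.next (T.next d)) (by
        rw [e2, e3, T.next_next_next]
        tauto)
      have i1 : T.inv d = T.rot (T.next d) := (CONN_rot_next T d).symm
      have i2 : T.inv (T.next d) = T.rot (T.next (T.next d)) := (CONN_rot_next T _).symm
      have i3 : T.inv (T.next (T.next d)) = T.rot d := rfl
      have b1 := FRM_sum _ _ _ r1.1 r1.2.1 r1.2.2
      have b2 := FRM_sum _ _ _ r2.1 r2.2.1 r2.2.2
      have b3 := FRM_sum _ _ _ r3.1 r3.2.1 r3.2.2
      rw [hg, hg, hg, i1, i2, i3, b1, b2, b3, ← e1, ← e2, e3]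
      exact FRM_face _ _ _ _ _ _ r1.1 r2.1 r3.1
    · push Not at h
      obtain ⟨h1, h2, h3⟩ := h
      rw [gA d h1 h2, gA (T.next d) (by rw [e1]; exact h2) h3,
        gA (T.next (T.next d)) (by rw [e2]; exact h3) (by rw [e3]; exact h1), mul_one, mul_one]
  · intro d h1 h2
    rw [hg, FRM_G_act]
    by_cases h : T.org d ∈ A ∧ T.tgt d ∈ A
    · rw [hcA _ h.1, hβA _ h.1]
      exact (FRM_z_ne _ _ h1 h2 (hprop d h.1)).symm
    · have h' : T.org d ∉ A ∨ T.tgt d ∉ A := by
        by_cases h1 : T.org d ∈ A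
        · exact Or.inr fun h2 => h ⟨h1, h2⟩
        · exact Or.inl h1
      exact (rel d (h'.elim Or.inl fun x => Or.inr (Or.inl x))).1.symm

end ESub
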