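import Pool.Agent.Work.MP_a2fb93_df.Interface
set_option autoImplicit false

/-! Block GAI: frames off N, with classes off I (copy of GAR). -/

namespace ESub

open Finset Classical

theorem GAI_inj {R : Type} [CommRing R] (a : Aff R) {x y : R} (h : a.act x = a.act y) :
    x = y := by
  have h1 := congrArg (a⁻¹).act h
  rw [← Aff.act_mul, ← Aff.act_mul, inv_mul_cancel, Aff.act_one, Aff.act_one] at h1
  exact h1

theorem p_GAI : Stmt_GAI := by
  intro D _ T n L hF hL N hN c γ hnone hsome I g cl hg h2
  obtain ⟨φ, hφ⟩ := hN (Aff (ZMod 3)) g hg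
  set A : T.Vertex → Aff (ZMod 3) := fun v =>
    if c v = none then (φ v)⁻¹ else ((γ v).map g).prod with hA
  set g' : D → Aff (ZMod 3) := fun d => (A (T.org d))⁻¹ * g d * A (T.tgt d) with hg'
  refine ⟨g', fun v => ((A v)⁻¹).act (cl v), ⟨?_, ?_⟩, ?_, ?_⟩
  · intro d
    have h3 : T.org (T.inv d) = T.tgt d := rfl
    show (A (T.org (T.inv d)))⁻¹ * g (T.inv d) * A (T.tgt (T.inv d)) =
      ((A (T.org d))⁻¹ * g d * A (T.tgt d))⁻¹
    rw [h3, tgt_inv, hg.inv, mul_inv_rev, mul_inv_rev, inv_inv, mul_assoc]
  · intro d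
    show (A (T.org d))⁻¹ * g d * A (T.tgt d) *
      ((A (T.org (T.next d)))⁻¹ * g (T.next d) * A (T.tgt (T.next d))) *
      ((A (T.org (T.next (T.next d))))⁻¹ * g (T.next (T.next d)) *
        A (T.tgt (T.next (T.next d)))) = 1
    rw [org_next T d, org_next T (T.next d), tgt_next_next T d]
    have h3 := hg.face d
    have h4 : (A (T.org d))⁻¹ * g d * A (T.tgt d) *
      ((A (T.tgt d))⁻¹ * g (T.next d) * A (T.tgt (T.next d))) *
      ((A (T.tgt (T.next d)))⁻¹ * g (T.next (T.next d)) * A (T.org d)) =
      (A (T.org d))⁻¹ * (g d * g (T.next d) * g (T.next (T.next d))) * A (T.org d) := by group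
    rw [h4, h3]
    group
  · intro d ho ht
    show ((A (T.org d))⁻¹ * g d * A (T.tgt d)).act (((A (T.tgt d))⁻¹).act (cl (T.tgt d))) ≠
      ((A (T.org d))⁻¹).act (cl (T.org d))
    rw [← Aff.act_mul, mul_inv_cancel_right, Aff.act_mul]
    intro h3
    exact h2 d ho ht (GAI_inj _ h3)
  · intro d hd
    show (A (T.org d))⁻¹ * g d * A (T.tgt d) = 1
    rcases hc : c (T.org d) with _ | u
    · have hc' : c (T.tgt d) = none := by rw [← hd, hc]
      have a1 : A (T.org d) = (φ (T.org d))⁻¹ := by
        rw [hA]
        exact if_pos hc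
      have a2 : A (T.tgt d) = (φ (T.tgt d))⁻¹ := by
        rw [hA]
        exact if_pos hc'
      rw [a1, a2, hφ d (hnone _ hc) (hnone _ hc')]
      group
    · have hc' : c (T.tgt d) = some u := by rw [← hd, hc]
      have a1 : A (T.org d) = ((γ (T.org d)).map g).prod := by
        rw [hA]
        exact if_neg (by rw [hc]; simp)
      have a2 : A (T.tgt d) = ((γ (T.tgt d)).map g).prod := by
        rw [hA]
        exact if_neg (by rw [hc']; simp)
      obtain ⟨w1, l1⟩ := hsome _ _ hc
      obtain ⟨w2, l2⟩ := hsome _ _ hc'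
      have h3 : T.IsWalk (T.rev (γ (T.org d)) ++ ([d] ++ γ (T.tgt d))) u u :=
        walk_append T (walk_rev T w1)
          (walk_append T (show T.IsWalk [d] (T.org d) (T.tgt d) from ⟨rfl, rfl⟩) w2)
      have h4 : (T.rev (γ (T.org d)) ++ ([d] ++ γ (T.tgt d))).length < n := by
        simp only [Triangulation.rev, List.length_append, List.length_reverse, List.length_map,
          List.length_singleton]
        omega
      have h5 := short_closed T hF h3 h4 hg
      rw [List.map_append, List.map_append, List.prod_append, List.prod_append,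
        prod_rev T hg, List.map_singleton, List.prod_singleton, ← mul_assoc] at h5
      rw [a1, a2]
      exact h5

end ESub
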