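import Pool.Agent.Work.MP_a2fb93_df.Interface
import Pool.Agent.Work.MP_a2fb93_gn.FIN
set_option autoImplicit false

/-!
The final assembly (MP_a2fb93_co, triangulations with sparse defects).
-/

namespace ESub

open Finset Classical

/-- the general theorem, with a set N of vertices -/
def Stmt_DNR : Prop :=
  ∃ K : ℕ, 0 < K ∧ K = 2 ^ 18 ∧ ∀ (D : Type) [Finite D] (T : Triangulation D) (S : Set T.Vertex)
    (k : ℕ) (f : T.Vertex → Fin 4), Tame T S k f →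
    ∀ (N : Set T.Vertex) (r : ℕ), K * (k + 1) ≤ r →
      (∀ s ∈ S, ∀ t ∈ S, T.Near (K * (k + 1)) s t → s = t) →
      T.FaceWidthAtLeast r → T.FlatOff N →
      (∀ v ∈ N, Nat.card {w : T.Vertex // w ∈ N ∧ T.Near r v w} ≤ 2 ^ (r / K)) →
      T.DualThreeEdgeColourable

theorem dnr (hFRM : Stmt_FRM) (hLIFT : Stmt_LIFT) (hPOT : Stmt_POT)
    (hWNR : Stmt_WNR) (hGAI : Stmt_GAI) (hTBR : Stmt_TBR) (hPKR : Stmt_PKR)
    (hCLM : Stmt_CLM) (hCLI : Stmt_CLI) : Stmt_DNR := by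
  refine ⟨2 ^ 18, by norm_num, rfl, ?_⟩
  intro D _ T S k f hT N r hrk hsep hfw hfl hN
  have hr : 2 ^ 18 ≤ r := by
    refine le_trans ?_ hrk
    exact Nat.le_mul_of_pos_right _ (Nat.succ_pos k)
  have := finite_vertex T
  obtain ⟨m, hm⟩ : ∃ m, r / 2 ^ 14 = m + 1 := by
    have : 0 < r / 2 ^ 14 := Nat.div_pos (le_trans (by norm_num) hr) (by norm_num)
    exact ⟨r / 2 ^ 14 - 1, by omega⟩
  obtain ⟨L, hL⟩ : ∃ L, L + 1 = 2048 * (m + 1) := ⟨2048 * (m + 1) - 1, by omega⟩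
  have hrm : 2 ^ 14 * (m + 1) ≤ r := by
    rw [← hm]; exact Nat.mul_div_le r _
  have hq : 16 * (r / 2 ^ 18) ≤ r / 2 ^ 14 := by
    rw [Nat.le_div_iff_mul_le (by norm_num)]
    have := Nat.mul_div_le r (2 ^ 18)
    calc 16 * (r / 2 ^ 18) * 2 ^ 14 = 2 ^ 18 * (r / 2 ^ 18) := by ring
      _ ≤ r := this
  have hq1 : 1 ≤ r / 2 ^ 18 := Nat.div_pos hr (by norm_num)
  have hM : 12 * (2 ^ (r / 2 ^ 18)) ^ 2 ≤ 2 ^ m := by
    calc 12 * (2 ^ (r / 2 ^ 18)) ^ 2 ≤ 2 ^ 4 * (2 ^ (r / 2 ^ 18)) ^ 2 :=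
          Nat.mul_le_mul_right _ (by norm_num)
      _ = 2 ^ (4 + 2 * (r / 2 ^ 18)) := by rw [← pow_mul, ← pow_add]; ring_nf
      _ ≤ 2 ^ m := Nat.pow_le_pow_right (by norm_num) (by omega)
  obtain ⟨n, δ, ord, hδ, hord, hinj, hpick⟩ := hPKR D T N m (2 ^ (r / 2 ^ 18)) L hL hM (by
    intro v hv
    refine le_trans ?_ (hN v hv)
    refine Nat.card_le_card_of_injective
      (fun w : {w : T.Vertex // w ∈ N ∧ T.Near (2 ^ 14 * (m + 1)) v w} =>
        (⟨w.1, w.2.1, FIN_near_mono T hrm w.2.2⟩ : {w : T.Vertex // w ∈ N ∧ T.Near r v w})) ?_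
    intro a b hab
    exact Subtype.ext (congrArg (fun z => z.1) hab))
  obtain ⟨c, γ, hnone, hc, hγ⟩ := hWNR D T N L n δ ord hδ hord hinj
  obtain ⟨g, cl0, hg, hg2⟩ := hFRM D T S k f hT
  set I : Set T.Vertex := {v | f v = 3} with hI
  obtain ⟨g', cl, hg', hcl, hone⟩ := hGAI D T r L hfw (by omega) N hfl c γ hnone
    (fun v u h => ⟨(hγ v u h).1, (hγ v u h).2.1⟩) I g cl0 hg (fun d h1 h2 => hg2 d h1 h2)
  obtain ⟨ρ, hρ, hred, ht4, hρ1⟩ := hLIFT D T g' hg'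
  have hClu : Clu T L c γ ρ :=
    { walk := fun v u h => (hγ v u h).1
      len := fun v u h => (hγ v u h).2.1
      mem := fun v u h => (hγ v u h).2.2
      flat := hρ
      t4 := ht4
      one := fun d h => hρ1 d (hone d h) }
  have h3 : L + 1 + 2 * L = 3 * L + 1 := by ring
  have key := hTBR D T r L (L + 1) (48 * (m + 1)) (by omega) hfw (by omega) (by omega)
    (by omega) c γ ρ hClu (by
      intro v w a b hva hwb hab
      rw [h3] at hab ⊢
      exact hpick c hc a (hc v a hva).1 b (hc w b hwb).1 hab)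
  obtain ⟨F, hF⟩ := hPOT D T ρ hρ _ key
  have hk1 : 10 * k + 12 ≤ 2 ^ 18 * (k + 1) := by omega
  obtain ⟨F', τ, y, hF', hτ, hy⟩ := hCLM D T r k S ρ F hfw (hk1.trans hrk)
    (fun s hs t ht hst => hsep s hs t ht (FIN_near_mono T (by omega) hst)) hρ hF
  refine hCLI D T ρ cl F' I (Ball T S (k + 1)) τ y hρ (fun d h1 h2 => by
    rw [hred d]; exact hcl d h1 h2) hF' hτ hy ?_
  intro d hd
  obtain ⟨s, hs, hsd⟩ := hT.fourth _ hd
  have h1 : T.Near (k + 1) s (T.tgt d) := by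
    obtain ⟨l, hl, hw⟩ := (near_iff T k s _).1 hsd
    exact (near_iff T (k + 1) s _).2 ⟨l ++ [d], by simp; omega,
      walk_append T hw (show T.IsWalk [d] (T.org d) (T.tgt d) from ⟨rfl, rfl⟩)⟩
  have h0 : T.Near (k + 1) s (T.org d) := FIN_near_mono T (by omega) hsd
  refine ⟨⟨s, hs, h0⟩, ⟨s, hs, h1⟩, ?_⟩
  intro h2
  have h4 : f (T.org d) = 3 := hd
  have h5 : f (T.tgt d) = 3 := h2
  exact hT.proper s hs d (FIN_near_mono T (by omega) h0) (FIN_near_mono T (by omega) h1)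
    (h4.trans h5.symm)

/-- the theorem for the genus -/
def Stmt_DEN : Prop :=
  ∃ K : ℕ, ∀ (D : Type) [Finite D] (T : Triangulation D) (S : Set T.Vertex) (k : ℕ)
    (f : T.Vertex → Fin 4), Tame T S k f →
    (∀ s ∈ S, ∀ t ∈ S, T.Near (K * (k + 1)) s t → s = t) → T.Connected →
    ∀ g : ℕ, T.GenusAtMost g → T.FaceWidthAtLeast (K * (k + 1 + Nat.log 2 (g + 1))) →
      T.DualThreeEdgeColourable

theorem den (hDNR : Stmt_DNR) (hBFS : Stmt_BFS) (hDBF : Stmt_DBF) (hCTX : Stmt_CTX)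
    (hDSC : Stmt_DSC) (hLCN : Stmt_LCN) : Stmt_DEN := by
  obtain ⟨K, -, hK, h⟩ := hDNR
  subst hK
  refine ⟨2 ^ 24, ?_⟩
  intro D _ T S k f hT hsep hcon g hg hfw
  rcases isEmpty_or_nonempty D with hD | hD
  · exact ⟨fun d => (hD.false d).elim, fun d => (hD.false d).elim, fun d => (hD.false d).elim⟩
  obtain ⟨B⟩ := hBFS D T hcon
  obtain ⟨C⟩ := hDBF D T hcon B
  refine h D T S k f hT C.CG _ ?_ (fun s hs t ht hst => hsep s hs t ht
    (FIN_near_mono T ?_ hst)) hfw (hDSC D T B C) ?_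
  · calc 2 ^ 18 * (k + 1) ≤ 2 ^ 24 * (k + 1) := Nat.mul_le_mul_right _ (by norm_num)
      _ ≤ _ := Nat.mul_le_mul_left _ (by omega)
  · exact Nat.mul_le_mul_right _ (by norm_num)
  · intro v _
    set s := k + 1 + Nat.log 2 (g + 1) with hs
    have hgs : g ≤ 2 ^ s := by
      have := Nat.lt_pow_succ_log_self (b := 2) (by norm_num) (g + 1)
      have h2 : 2 ^ (Nat.log 2 (g + 1)).succ ≤ 2 ^ s :=
        Nat.pow_le_pow_right (by norm_num) (by omega)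
      omega
    have hs1 : 1 ≤ s := by omega
    have hss : s ≤ 2 ^ s := Nat.lt_two_pow_self.le
    have hdiv : 2 ^ 24 * s / 2 ^ 18 = 64 * s := by
      rw [show 2 ^ 24 * s = 2 ^ 18 * (64 * s) by ring]
      exact Nat.mul_div_cancel_left _ (by norm_num)
    rw [hdiv]
    calc Nat.card {w : T.Vertex // w ∈ C.CG ∧ T.Near (2 ^ 24 * s) v w}
        ≤ Nat.card C.X * (2 * (2 ^ 24 * s) + 1) := hLCN D T B C _ v
      _ ≤ (4 * g) * (2 ^ 26 * s) := by
          refine Nat.mul_le_mul (hCTX D T B C g hg) ?_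
          omega
      _ ≤ (4 * 2 ^ s) * (2 ^ 26 * 2 ^ s) :=
          Nat.mul_le_mul (Nat.mul_le_mul_left _ hgs) (Nat.mul_le_mul_left _ hss)
      _ = 2 ^ (28 + 2 * s) := by rw [pow_add, two_mul, pow_add]; ring
      _ ≤ 2 ^ (64 * s) := Nat.pow_le_pow_right (by norm_num) (by omega)

/-- the theorem with a set of vertices whose complement contains no noncontractible closed walk -/
def Stmt_DSET : Prop :=
  ∃ K : ℕ, 0 < K ∧ ∀ (D : Type) [Finite D] (T : Triangulation D) (S : Set T.Vertex)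
    (k : ℕ) (f : T.Vertex → Fin 4), Tame T S k f →
    (∀ s ∈ S, ∀ t ∈ S, T.Near (K * (k + 1)) s t → s = t) →
    ∀ (N : Set T.Vertex) (r : ℕ), K * (k + 1) ≤ r → T.FaceWidthAtLeast r → T.ContractibleOff N →
      (∀ v ∈ N, Nat.card {w : T.Vertex // w ∈ N ∧ T.Near r v w} ≤ 2 ^ (r / K)) →
      T.DualThreeEdgeColourable

theorem dset_of_dnr (hDNR : Stmt_DNR) (hGPH : Stmt_GPH) : Stmt_DSET := by
  obtain ⟨K, hK, -, h⟩ := hDNR
  exact ⟨K, hK, fun D _ T S k f hT hsep N r hr hfw hN hc =>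
    h D T S k f hT N r hr hsep hfw (hGPH D T N hN) hc⟩

end ESub
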