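import Pool.Agent.Work.MP_a2fb93_gn.All
import Pool.Agent.Work.MP_a2fb93_df.FIN
import Pool.Agent.Work.MP_a2fb93_df.B_GAI
import Pool.Agent.Work.MP_a2fb93_df.B_FRM
import Pool.Agent.Work.MP_a2fb93_df.B_CLM
import Pool.Agent.Work.MP_a2fb93_df.B_CLI
set_option autoImplicit false

/-!
All blocks together.
-/

namespace ESub

theorem all_dnr : Stmt_DNR :=
  dnr p_FRM (p_LIFT (p_FL (p_TUT p_REACH))) p_POT p_WNR p_GAI
    (p_TBR p_TRR) (p_PKR p_NMR) p_CLM p_CLI

/-- triangulations of genus at most g with sparse defects and face-width at least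
K (k + 1 + log g) -/
theorem defects_genus : Stmt_DEN :=
  den all_dnr p_BFS (p_DBF p_FAC p_DCN) (p_CTX p_FAC) (p_DSC p_FAC p_FOR) p_LCN

/-- the general form, with a set N of vertices such that closed walks off N are contractible -/
theorem defects_set : Stmt_DSET := dset_of_dnr all_dnr p_GPH

end ESub
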