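import Pool.Agent.Work.MP_a2fb93_gn.Interface
set_option autoImplicit false

/-!
Triangulations with sparse defects (MP_a2fb93_co, helper52): definitions and statements.

THEOREM. There is an absolute K: T a triangulation of a closed connected orientable surface of genus
at most g, S a set of vertices with pairwise distances > K (k + 1), f a map from the vertices to
{0, 1, 2, 3} which is a proper colouring of the ball of radius k + 2 around each s in S; the colour 3 is
used only within distance k of S, and the vertices at distance at least k + 2 from S have even degrees.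
If the face-width is at least K (k + 1 + log_2 (g + 1)) then the dual is 3-edge-colourable.
-/

namespace ESub

open Finset Classical

/-- The defects are around the vertices of S: within distance k + 2 of each s in S the map f is a proper
4-colouring, the colour 3 is used only within distance k of S, and all vertices which are not within
distance k + 1 of S have even degree. -/
structure Tame {D : Type} (T : Triangulation D) (S : Set T.Vertex) (k : ℕ)
    (f : T.Vertex → Fin 4) : Prop where
  proper : ∀ s ∈ S, ∀ d : D, T.Near (k + 2) s (T.org d) → T.Near (k + 2) s (T.tgt d) →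
    f (T.org d) ≠ f (T.tgt d)
  fourth : ∀ v, f v = 3 → ∃ s ∈ S, T.Near k s v
  even : ∀ (d : D) (n : ℕ), (∀ s ∈ S, ¬ T.Near (k + 1) s (T.org d)) → T.rot^[n] d = d → Even n

/-- the vertices within distance m of S -/
def Ball {D : Type} (T : Triangulation D) (S : Set T.Vertex) (m : ℕ) : Set T.Vertex :=
  {v | ∃ s ∈ S, T.Near m s v}

/-- FRM (180 lines, edit of `ev/B_CONN.lean`, uses nothing). Frames.
PROOF. A = Ball T S (k + 1). Let z : Fin 4 → ZMod 3 be 0, 1, 2, 0 at 0, 1, 2, 3. cl v = z (f v) for v in A,
cl v = 2 for v not in A. Signs: σ : D → {1, -1} with σ (rot d) = - σ d for all d with org d not in A (as in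
`B_CONN.lean`: σ d = (-1)^n for some n with rot^[n] (rep (org d)) = d; only the degrees of the vertices
off A are used, `Tame.even`). Let β d = z (f (tgt d)) if org d in A; for org d not in A let β d = 0 if
σ d = 1 and β d = 1 if σ d = -1 (the class of tgt d in the frame of org d). For p ≠ q, x ≠ y in ZMod 3 let
G p q x y be the affine map over ZMod 3 with q ↦ x and y ↦ p: s = 1 if p - x = y - q, s = -1 if
p - x = - (y - q), t = x - s q (one of both holds, as differences different from 0 in ZMod 3 are 1 or -1).
g d = 1 if org d and tgt d are in A, otherwise g d = G (cl (org d)) (cl (tgt d)) (β d) (β (inv d)), i.e.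
cl (tgt d) ↦ β d, β (inv d) ↦ cl (org d).
(1) RELATION: if some corner of the face {d, next d, next (next d)} (corners org d, tgt d, tgt (next d))
is off A, then for each of the three darts e of the face cl (org e), β e, β (rot e) are the three different
elements of ZMod 3 (rot e = inv (next (next e)) starts at org e and ends at tgt (next e), so these are the
classes of the three corners in the frame of org e). Proof: if org e is off A: cl = 2 and {β e, β (rot e)} =
{0, 1} since σ (rot e) = - σ e. If org e is in A: Near (k + 1) s (org e) for some s in S, so all corners are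
within distance k + 2 of s and f is proper on the three edges of the face (`Tame.proper`); if f u = 3 for a
corner u, then Near k s' u for some s' in S and all three corners are in Ball T S (k + 1) = A, a
contradiction; so f takes the three values 0, 1, 2 on the corners, and z is injective on them.
(2) g satisfies g (inv d) = (g d)⁻¹: if both ends are in A clear; otherwise G p q x y and G q p y x are
inverse to each other (decide over ZMod 3, for p ≠ x, q ≠ y).
(3) Faces. If the three corners are in A: 1 * 1 * 1 = 1. Otherwise g e = G (cl (org e)) (cl (tgt e)) (β e)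
(β (inv e)) for the three darts e of the face, ALSO if both ends of e are in A (then
β e = z (f (tgt e)) = cl (tgt e), β (inv e) = cl (org e), cl (org e) ≠ cl (tgt e) by (1), and G p q q p is
the identity: s = 1, t = q - q = 0). With e1 = d, e2 = next d, e3 = next (next d), c_i = cl (org e_i),
x_i = β e_i and inv e_i = rot (e_{i+1}) (rot (next d) = inv d, `CONN_rot_next`), so
β (inv e_i) = β (rot e_{i+1}) = - c_{i+1} - x_{i+1} (the relation (1): three different elements of ZMod 3
have the sum 0): the product is
G c1 c2 x1 (-c2-x2) * G c2 c3 x2 (-c3-x3) * G c3 c1 x3 (-c1-x1) = 1 for all c_i ≠ x_i: decide (3^6 cases;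
or first prove it for the values by `decide` on act 0, act 1, or use revert and decide in small steps).
(4) For f (org d) ≠ 3 and f (tgt d) ≠ 3: if both ends are in A: g d = 1 and cl (tgt d) = z (f (tgt d)) ≠
z (f (org d)) = cl (org d) since f is proper on d (`Tame.proper`: Near (k + 1) s (org d), so both ends are
within distance k + 2 of s) and the values are not 3. Otherwise (g d).act (cl (tgt d)) = β d ≠ cl (org d)
by (1). -/
def Stmt_FRM : Prop :=
  ∀ (D : Type) [Finite D] (T : Triangulation D) (S : Set T.Vertex) (k : ℕ) (f : T.Vertex → Fin 4),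
    Tame T S k f → ∃ (g : D → Aff (ZMod 3)) (cl : T.Vertex → ZMod 3), IsFlat T g ∧
      ∀ d, f (T.org d) ≠ 3 → f (T.tgt d) ≠ 3 → (g d).act (cl (T.tgt d)) ≠ cl (T.org d)

/-- GAI. Frames in the clusters, see `gn/B_GAR.lean`. -/
def Stmt_GAI : Prop :=
  ∀ (D : Type) [Finite D] (T : Triangulation D) (n L : ℕ), T.FaceWidthAtLeast n → 2 * L + 1 < n →
    ∀ (N : Set T.Vertex), T.FlatOff N →
    ∀ (c : T.Vertex → Option T.Vertex) (γ : T.Vertex → List D), (∀ v, c v = none → v ∉ N) →
      (∀ v u, c v = some u → T.IsWalk (γ v) v u ∧ (γ v).length ≤ L) →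
    ∀ (I : Set T.Vertex) (g : D → Aff (ZMod 3)) (cl : T.Vertex → ZMod 3), IsFlat T g →
      (∀ d, T.org d ∉ I → T.tgt d ∉ I → (g d).act (cl (T.tgt d)) ≠ cl (T.org d)) →
      ∃ (g' : D → Aff (ZMod 3)) (cl' : T.Vertex → ZMod 3), IsFlat T g' ∧
        (∀ d, T.org d ∉ I → T.tgt d ∉ I → (g' d).act (cl' (T.tgt d)) ≠ cl' (T.org d)) ∧
        (∀ d, c (T.org d) = c (T.tgt d) → g' d = 1)

/-- the real value of an affine map -/
noncomputable def Aff.ract (a : Aff ℤ) (y : ℝ) : ℝ := (((a.s : ℤ) : ℝ)) * y + ((a.t : ℤ) : ℝ)

/-- CLM (220 lines, uses nothing). Calming F near S so that it is parallel within distance k + 1.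
PROOF. L = 5 (k + 1), so 2 L + 1 = 10 k + 11 < n. `ract`: (a * b).ract y = a.ract (b.ract y),
(1 : Aff ℤ).ract y = y, |a.ract y - a.ract y'| = |y - y'|. For a vertex u with Near L s u for some s in S the
s is unique (s, s' both: Near (2 L) s s', so s = s' by the hypothesis). Choose for such a u the vertex
s = ct u in S and a walk w u from u to s with length = the least possible, dist u := this length ≤ L (use
`Nat.find` on the lengths of walks from u to s, or T.td L s u with the facts
`(p_TDF p_VTX D T L)`: td changes by at most 1 along a dart, td L s u ≤ L iff Near L u s; near_iff).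
τ u = product of ρ along w u, τ u = 1 for the other u. (1) If u = org d and u' = tgt d both are within L of S
then ct u = ct u' (Near (2 L + 1) s s') and τ u = ρ d * τ u': the walk rev (w u) ++ [d] ++ w u' is closed at s
and has length ≤ 2 L + 1 < n, so the product of ρ along it is 1 (`short_closed`, `prod_rev`). (2) Let
P u = (τ u).ract (F s) and a u = F u - P u. Then |a u| ≤ dist u / 4: induction along the walk w u with the
hypothesis on F (general lemma: for a walk l from u to v |F u - (product of ρ along l).ract (F v)| ≤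
l.length / 4). (3) θ u = (L - dist u) / 16 ≥ 0, φ θ x = max (x - θ) 0 + min (x + θ) 0 (soft threshold;
φ θ (-x) = - φ θ x, |φ θ x - φ θ' x'| ≤ |x - x'| + |θ - θ'| for θ, θ' ≥ 0, φ 0 x = x, φ θ x = 0 if |x| ≤ θ).
F' u = P u + φ (θ u) (a u) for u within L of S, F' u = F u for the others. For u with dist u ≤ k + 1:
|a u| ≤ (k + 1) / 4 and θ u ≥ (5 (k + 1) - (k + 1)) / 16 = (k + 1) / 4, so F' u = P u. (4) Edges d from u to
u': both within L: a u - ρ-transport: with s0 = (ρ d).s = 1 or -1, F u - (ρ d).ract (F u') =
a u - s0 * a u' since P u = (ρ d).ract (P u') by (1); so |a u - s0 a u'| ≤ 1/4, |θ u - θ u'| ≤ 1/16 and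
F' u - (ρ d).ract (F' u') = φ (θ u) (a u) - s0 φ (θ u') (a u') = φ (θ u) (a u) - φ (θ u') (s0 a u') has
absolute value ≤ 1/4 + 1/16. If u is within L and u' is not: dist u = L (otherwise Near L s u'), so θ u = 0
and F' u = F u: ≤ 1/4; the same with u, u' exchanged; both not within L: ≤ 1/4.
(5) y v = F (ct v) for v within L of S (any value elsewhere); for v ∈ Ball T S (k + 1) (k + 1 ≤ L) all
clauses hold: τ (org d) = ρ d * τ (tgt d) by (1), y (org d) = y (tgt d) as ct is the same, F' v = P v. -/
def Stmt_CLM : Prop :=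
  ∀ (D : Type) [Finite D] (T : Triangulation D) (n k : ℕ) (S : Set T.Vertex) (ρ : D → Aff ℤ)
    (F : T.Vertex → ℝ), T.FaceWidthAtLeast n → 10 * k + 12 ≤ n →
    (∀ s ∈ S, ∀ t ∈ S, T.Near (10 * k + 11) s t → s = t) → IsFlat T ρ →
    (∀ d, |F (T.org d) - (ρ d).ract (F (T.tgt d))| ≤ 1 / 4) →
    ∃ (F' : T.Vertex → ℝ) (τ : T.Vertex → Aff ℤ) (y : T.Vertex → ℝ),
      (∀ d, |F' (T.org d) - (ρ d).ract (F' (T.tgt d))| ≤ 5 / 16) ∧
      (∀ d, T.org d ∈ Ball T S (k + 1) → T.tgt d ∈ Ball T S (k + 1) →
        τ (T.org d) = ρ d * τ (T.tgt d) ∧ y (T.org d) = y (T.tgt d)) ∧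
      ∀ v ∈ Ball T S (k + 1), F' v = (τ v).ract (y v)

/-- CLI (200 lines, edit of `ev/B_COL.lean`, import it; uses nothing). Colouring with the fourth colour
at the vertices of I.
PROOF. `ev/B_COL.lean` has the definitions COL_M, COL_adj, COL_cr and the lemmas COL_round, COL_mod,
COL_cr_M, COL_adj_M, COL_cr_ne, COL_cr_symm, and COL_near (prove a copy CLI_near with 5 / 16 instead of
1 / 4: 3/2 + 3/2 + 2 * (5/16) < 4, the same proof; its form with 0 instead of 1/4 is needed for
n below). For y : ℝ and c : ZMod 3 choose n y c : ℤ with (n y c : ZMod 3) = 2 * c + 2 and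
|n y c - (2 y + 1/2)| ≤ 3/2 (COL_round). Then COL_adj (n y c) (n y c') for c ≠ c' (COL_near with a = 1, f = g
= y). For v ∈ Y let κ v = (((τ v).red)⁻¹).act (cl v) and N v = COL_M (τ v) (n (y v) (κ v)); for v ∉ Y let
N v be an integer with N v ≡ 2 cl v + 2, |N v - (2 F v + 1/2)| ≤ 3/2. For all v: N v ≡ 2 cl v + 2
(COL_mod; (τ v).red.act (κ v) = cl v) and |N v - (2 F v + 1/2)| ≤ 3/2 (for v ∈ Y: COL_M (τ v) z -
(2 (τ v).ract y + 1/2) = ± (z - (2 y + 1/2)), cases (τ v).s = 1, -1). (1) For d with both ends not in I:
COL_adj (N (org d)) (COL_M (ρ d) (N (tgt d))) by CLI_near. (2) For d with org d, tgt d in Y: τ (org d) =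
ρ d * τ (tgt d) (red is multiplicative), y is the same; if both ends are not in I then
κ (org d) ≠ κ (tgt d), and N (org d) = COL_M (τ (org d)) (n y κ), COL_M (ρ d) (N (tgt d)) =
COL_M (τ (org d)) (n y κ') (COL_M_mul), so by COL_cr_M the COL_cr of both is COL_cr (n y κ) (n y κ').
(3) For v let e v = COL_cr (n (y v) (κ v + 1)) (n (y v) (κ v + 2)). colour d = e (tgt d) if org d ∈ I,
= e (org d) if org d ∉ I and tgt d ∈ I, otherwise COL_cr (N (org d)) (COL_M (ρ d) (N (tgt d))). colour
(inv d) = colour d: if org d ∈ I then tgt d ∉ I; otherwise as in p_COL. (4) Faces: if no corner is in I as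
in p_COL (you may prove colour d ≠ colour (next d) for all d; it implies the three inequalities as
next (next (next d)) = d). If a corner is in I, say org d ∈ I: then tgt d ∉ I, org (next (next d)) =
tgt (next d) = org of .. (the dart rot d = inv (next (next d)) starts at org d, so its target
tgt (next d) is not in I) and all three corners are in Y. With κ1 = κ (tgt d), κ2 = κ (tgt (next d)),
κ1 ≠ κ2 (next d has both ends off I), y the same: colours of d, next d, next (next d) are
cr (n (κ1+1)) (n (κ1+2)), cr (n κ1) (n κ2), cr (n (κ2+1)) (n (κ2+2)). {κ1+1, κ1+2} = {κ2, κ3}, κ3 the third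
class (κ2 = κ1 + 1 or κ1 + 2: two cases), so these are the three pairs of n κ1, n κ2, n κ3, pairwise
COL_adj: different by COL_cr_ne and COL_cr_symm. -/
def Stmt_CLI : Prop :=
  ∀ (D : Type) [Finite D] (T : Triangulation D) (ρ : D → Aff ℤ) (cl : T.Vertex → ZMod 3)
    (F : T.Vertex → ℝ) (I Y : Set T.Vertex) (τ : T.Vertex → Aff ℤ) (y : T.Vertex → ℝ),
    IsFlat T ρ →
    (∀ d, T.org d ∉ I → T.tgt d ∉ I → ((ρ d).red).act (cl (T.tgt d)) ≠ cl (T.org d)) →
    (∀ d, |F (T.org d) - (ρ d).ract (F (T.tgt d))| ≤ 5 / 16) →
    (∀ d, T.org d ∈ Y → T.tgt d ∈ Y →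
      τ (T.org d) = ρ d * τ (T.tgt d) ∧ y (T.org d) = y (T.tgt d)) →
    (∀ v ∈ Y, F v = (τ v).ract (y v)) →
    (∀ d, T.org d ∈ I → T.org d ∈ Y ∧ T.tgt d ∈ Y ∧ T.tgt d ∉ I) →
    T.DualThreeEdgeColourable

end ESub
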